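import Pool.Agent.H.MP_e43f0d_lc.C

namespace Pool.Agent.Results.MP_e43f0d_lc.Bounded

open Pool.Agent.H.MP_e43f0d_lc

theorem result (k : ℕ) : CS k := fun A _ R r rf sy tr hk => by
  obtain ⟨C, a, b, c⟩ := cross k R r.ir sy tr fun u => (hk u).trans (by exact_mod_cast k.le_succ)
  exact ⟨_, a, fun x g => ⟨x, b x g⟩, fun u ⟨v, g⟩ => c u (rf u v g)⟩

end Pool.Agent.Results.MP_e43f0d_lc.Bounded
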